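import Pool.Agent.Helper63.P705.NR.Goals

/-!
# NR-GS: the sine integral of a decreasing function is at least its first period
-/

namespace Pool.Agent.Helper31.NR

open MeasureTheory Set Filter Topology

theorem gS : Pool.Agent.Helper63.P705.NR.GS := by
  intro h hanti hnn hint u hu
  obtain ⟨a, ha⟩ : ∃ a : ℝ, a = Real.pi / u := ⟨_, rfl⟩
  have ha0 : 0 < a := by rw [ha]; positivity
  have hua : u * a = Real.pi := by rw [ha]; field_simp
  rw [← ha]
  obtain ⟨g, hg⟩ : ∃ g : ℝ → ℝ, g = fun y => h y * Real.sin (u * y) := ⟨_, rfl⟩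
  have hgint : IntegrableOn g (Ioi 0) := by
    rw [hg]
    refine Integrable.mul_bdd (c := 1) hint ?_ ?_
    · exact (Real.continuous_sin.comp (continuous_const.mul continuous_id)).aestronglyMeasurable
    · exact Filter.Eventually.of_forall fun y => by
        rw [Real.norm_eq_abs]; exact Real.abs_sin_le_one _
  have hgi : ∀ b c : ℝ, 0 ≤ b → 0 ≤ c → IntervalIntegrable g volume b c := by
    intro b c hb hc
    rw [intervalIntegrable_iff]
    refine hgint.mono_set ?_
    intro x hx
    rw [mem_uIoc] at hx
    rcases hx with hx | hx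
    · exact lt_of_le_of_lt hb hx.1
    · exact lt_of_le_of_lt hc hx.1
  -- one period
  have hper : ∀ n : ℕ, ∫ y in (2 * n * a)..(2 * n * a + 2 * a), g y =
      ∫ y in (0 : ℝ)..a, (h (y + 2 * n * a) - h (y + (2 * n * a + a))) * Real.sin (u * y) := by
    intro n
    have hn0 : (0 : ℝ) ≤ 2 * n * a := by positivity
    have h1 : ∫ y in (2 * n * a)..(2 * n * a + 2 * a), g y =
        (∫ y in (2 * n * a)..(2 * n * a + a), g y) +
          ∫ y in (2 * n * a + a)..(2 * n * a + 2 * a), g y :=
      (intervalIntegral.integral_add_adjacent_intervals (hgi _ _ hn0 (by linarith))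
        (hgi _ _ (by linarith) (by linarith))).symm
    have h2 : ∫ y in (2 * n * a)..(2 * n * a + a), g y =
        ∫ y in (0 : ℝ)..a, h (y + 2 * n * a) * Real.sin (u * y) := by
      have := intervalIntegral.integral_comp_add_right (a := (0 : ℝ)) (b := a) g (2 * n * a)
      rw [zero_add, add_comm a] at this
      rw [← this]
      refine intervalIntegral.integral_congr fun y _ => ?_
      show g (y + 2 * n * a) = _
      rw [hg]
      show h (y + 2 * n * a) * Real.sin (u * (y + 2 * n * a)) = _
      congr 1
      have : u * (y + 2 * n * a) = u * y + n * (2 * Real.pi) := by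
        rw [← hua]; ring
      rw [this, Real.sin_add_nat_mul_two_pi]
    have h3 : ∫ y in (2 * n * a + a)..(2 * n * a + 2 * a), g y =
        -∫ y in (0 : ℝ)..a, h (y + (2 * n * a + a)) * Real.sin (u * y) := by
      have := intervalIntegral.integral_comp_add_right (a := (0 : ℝ)) (b := a) g (2 * n * a + a)
      rw [zero_add] at this
      have he : a + (2 * n * a + a) = 2 * n * a + 2 * a := by ring
      rw [he] at this
      rw [← this, ← intervalIntegral.integral_neg]
      refine intervalIntegral.integral_congr fun y _ => ?_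
      show g (y + (2 * n * a + a)) = -(h (y + (2 * n * a + a)) * Real.sin (u * y))
      rw [hg]
      show h (y + (2 * n * a + a)) * Real.sin (u * (y + (2 * n * a + a))) = _
      have : u * (y + (2 * n * a + a)) = (u * y + Real.pi) + n * (2 * Real.pi) := by
        rw [← hua]; ring
      rw [this, Real.sin_add_nat_mul_two_pi, Real.sin_add_pi]
      ring
    have hi1 : IntervalIntegrable (fun y => h (y + 2 * n * a) * Real.sin (u * y)) volume 0 a := by
      have h0 := (hgi (2 * n * a) (2 * n * a + a) hn0 (by linarith)).comp_add_right (2 * n * a)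
      rw [sub_self, add_sub_cancel_left] at h0
      refine h0.congr ?_
      intro y _
      show g (y + 2 * n * a) = _
      rw [hg]
      show h (y + 2 * n * a) * Real.sin (u * (y + 2 * n * a)) = _
      have : u * (y + 2 * n * a) = u * y + n * (2 * Real.pi) := by
        rw [← hua]; ring
      rw [this, Real.sin_add_nat_mul_two_pi]
    have hi2 : IntervalIntegrable (fun y => h (y + (2 * n * a + a)) * Real.sin (u * y)) volume 0 a := by
      have h0 := ((hgi (2 * n * a + a) (2 * n * a + 2 * a) (by linarith) (by linarith)).comp_add_right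
        (2 * n * a + a)).neg
      have he : 2 * n * a + 2 * a - (2 * n * a + a) = a := by ring
      rw [sub_self, he] at h0
      refine h0.congr ?_
      intro y _
      show -g (y + (2 * n * a + a)) = _
      rw [hg]
      show -(h (y + (2 * n * a + a)) * Real.sin (u * (y + (2 * n * a + a)))) = _
      have : u * (y + (2 * n * a + a)) = (u * y + Real.pi) + n * (2 * Real.pi) := by
        rw [← hua]; ring
      rw [this, Real.sin_add_nat_mul_two_pi, Real.sin_add_pi]
      ring
    rw [h1, h2, h3, ← sub_eq_add_neg, ← intervalIntegral.integral_sub hi1 hi2]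
    refine intervalIntegral.integral_congr fun y _ => ?_
    show _ - _ = _
    ring
  have hnonneg : ∀ n : ℕ, 1 ≤ n → 0 ≤ ∫ y in (2 * n * a)..(2 * n * a + 2 * a), g y := by
    intro n hn
    rw [hper n]
    refine intervalIntegral.integral_nonneg ha0.le fun y hy => ?_
    have hn1 : (1 : ℝ) ≤ n := by exact_mod_cast hn
    have hp : 0 < 2 * n * a := by positivity
    refine mul_nonneg ?_ ?_
    · rw [sub_nonneg]
      refine hanti ?_ ?_ ?_
      · show 0 < y + 2 * n * a
        linarith [hy.1]
      · show 0 < y + (2 * n * a + a)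
        linarith [hy.1]
      · linarith
    · refine Real.sin_nonneg_of_nonneg_of_le_pi (mul_nonneg hu.le hy.1) ?_
      rw [← hua]
      exact mul_le_mul_of_nonneg_left hy.2 hu.le
  have hle : ∀ n : ℕ, ∫ y in (0 : ℝ)..a, (h y - h (y + a)) * Real.sin (u * y) ≤
      ∫ y in (0 : ℝ)..(2 * ((n : ℝ) + 1) * a), g y := by
    intro n
    induction n with
    | zero =>
      have := hper 0
      simp only [Nat.cast_zero, mul_zero, zero_mul, zero_add, add_zero] at this
      have he : (2 * ((((0 : ℕ) : ℝ)) + 1) * a) = 2 * a := by simp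
      rw [he, this]
    | succ n ih =>
      have h1 : ∫ y in (0 : ℝ)..(2 * (((n + 1 : ℕ) : ℝ) + 1) * a), g y =
          (∫ y in (0 : ℝ)..(2 * ((n : ℝ) + 1) * a), g y) +
            ∫ y in (2 * ((n + 1 : ℕ) : ℝ) * a)..(2 * ((n + 1 : ℕ) : ℝ) * a + 2 * a), g y := by
        have he1 : (2 * (((n + 1 : ℕ) : ℝ) + 1) * a) = 2 * ((n + 1 : ℕ) : ℝ) * a + 2 * a := by ring
        have he2 : 2 * ((n : ℝ) + 1) * a = 2 * ((n + 1 : ℕ) : ℝ) * a := by push_cast; ring
        rw [he1, he2]
        refine (intervalIntegral.integral_add_adjacent_intervals (hgi _ _ le_rfl (by positivity))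
          (hgi _ _ (by positivity) (by positivity))).symm
      rw [h1]
      have := hnonneg (n + 1) (by omega)
      linarith
  have hb : Tendsto (fun n : ℕ => 2 * ((n : ℝ) + 1) * a) atTop atTop := by
    refine Tendsto.atTop_mul_const ha0 ?_
    refine Tendsto.const_mul_atTop two_pos ?_
    exact tendsto_atTop_add_const_right _ _ tendsto_natCast_atTop_atTop
  have hlim := intervalIntegral_tendsto_integral_Ioi (0 : ℝ) hgint hb
  have := ge_of_tendsto' hlim hle
  rw [hg] at this
  exact this

end Pool.Agent.Helper31.NR
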